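import Pool.Agent.N273.LT.Gr
import Pool.Agent.N266.LS.Stm

/-!
# LS/CHAIN (helper755 for helper266): local chains of boxes
-/

set_option autoImplicit false

open MeasureTheory Set Filter Topology Function

namespace Pool.Agent.N755.LS

open Pool.Agent.Y291.PA (Sol2)
open Pool.Agent.R220.LV (W)
open Pool.Agent.N273.LT (Alt sc Bd UB le_sc int_of_bd comp_int stLoc_proved n1 n2 zz)
open Pool.Agent.N266.LS

theorem clamp_cont (a b : ℝ) : Continuous (clamp a b) := by
  unfold clamp
  fun_prop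

theorem clamp_mem {a b : ℝ} (h : a ≤ b) (x : ℝ) : clamp a b x ∈ Icc a b :=
  ⟨le_max_left _ _, max_le h (min_le_left _ _)⟩

/-- Rescaling. -/
theorem sol_scale {F G : ℝ → ℝ} {lam : ℝ} {φ φx φxx φy φyy : ℝ → ℝ → ℝ}
    (h : Sol2 (fun x y => lam * (F x + G y)) φ φx φxx φy φyy) (hF : Continuous F)
    (hG : Continuous G) (a b r : ℝ) :
    Sol2 (fun s t => r ^ 2 * lam * F (a + r * s) + r ^ 2 * lam * G (b + r * t))
      (fun s t => φ (a + r * s) (b + r * t)) (fun s t => r * φx (a + r * s) (b + r * t))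
      (fun s t => r ^ 2 * φxx (a + r * s) (b + r * t))
      (fun s t => r * φy (a + r * s) (b + r * t))
      (fun s t => r ^ 2 * φyy (a + r * s) (b + r * t)) := by
  have hc : ∀ (ψ : ℝ → ℝ → ℝ) (c : ℝ), Continuous (uncurry ψ) →
      Continuous (uncurry fun s t => c * ψ (a + r * s) (b + r * t)) := by
    intro ψ c hψ
    have h1 : Continuous fun p : ℝ × ℝ => c * uncurry ψ (a + r * p.1, b + r * p.2) :=
      continuous_const.mul (hψ.comp (by fun_prop))
    exact h1
  have hdx : ∀ (s : ℝ), HasDerivAt (fun s : ℝ => a + r * s) r s := by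
    intro s
    have := ((hasDerivAt_id s).const_mul r).const_add a
    simpa using this
  have hdy : ∀ (s : ℝ), HasDerivAt (fun s : ℝ => b + r * s) r s := by
    intro s
    have := ((hasDerivAt_id s).const_mul r).const_add b
    simpa using this
  refine ⟨?_, ?_, hc _ _ h.cx, hc _ _ h.cxx, hc _ _ h.cy, hc _ _ h.cyy, ?_, ?_, ?_, ?_, ?_⟩
  · have h1 : Continuous fun p : ℝ × ℝ => r ^ 2 * lam * F (a + r * p.1) +
        r ^ 2 * lam * G (b + r * p.2) := by fun_prop
    exact h1
  · have h1 := hc φ 1 h.c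
    simpa using h1
  · intro s t
    have h1 := (h.dx (a + r * s) (b + r * t)).comp s (hdx s)
    refine h1.congr_deriv ?_
    ring
  · intro s t
    have h1 := ((h.dxx (a + r * s) (b + r * t)).comp s (hdx s)).const_mul r
    refine h1.congr_deriv ?_
    ring
  · intro s t
    have h1 := (h.dy (a + r * s) (b + r * t)).comp t (hdy t)
    refine h1.congr_deriv ?_
    ring
  · intro s t
    have h1 := ((h.dyy (a + r * s) (b + r * t)).comp t (hdy t)).const_mul r
    refine h1.congr_deriv ?_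
    ring
  · intro s t
    have h1 : φxx (a + r * s) (b + r * t) + φyy (a + r * s) (b + r * t) =
        -(lam * (F (a + r * s) + G (b + r * t)) * φ (a + r * s) (b + r * t)) :=
      h.pde (a + r * s) (b + r * t)
    linear_combination r ^ 2 * h1

/-- One step of the chain. -/
theorem step : ∃ C : ℝ, 0 < C ∧ ∀ (F G : ℝ → ℝ) (lam : ℝ) (φ Φ Φx Φxx Φy Φyy : ℝ → ℝ → ℝ),
    Continuous F → Continuous G → Sol2 (fun x y => lam * (F x + G y)) Φ Φx Φxx Φy Φyy → UB φ →
    ∀ r w X Y R a b a' b' κ : ℝ, 0 < r →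
    (∀ x y, |x - X| ≤ R + 5 * r → |y - Y| ≤ R + 5 * r → Φ x y = φ x y) →
    (∀ x, |r ^ 2 * lam * F x| ≤ 1 / 100) → (∀ y, |r ^ 2 * lam * G y| ≤ 1 / 100) →
    |a - X| ≤ R → |b - Y| ≤ R → R + 2 * r ≤ w → |a' - a| ≤ r → |b' - b| ≤ r →
    (∀ x y, |x - a'| ≤ r → |y - b'| ≤ r → |φ x y| ≤ κ) →
    ∀ x y, |x - a| ≤ r → |y - b| ≤ r → |φ x y| ≤ κ * Real.exp (C * (1 + zz φ w X Y / r)) := by
  obtain ⟨C, hC, H⟩ := stLoc_proved
  refine ⟨C, hC, ?_⟩
  intro F G lam φ Φ Φx Φxx Φy Φyy hF hG hS hU r w X Y R a b a' b' κ hr hEq hF1 hG1 hX hY hw0 ha hb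
    hκ x y hx hy
  have hX' := abs_nonneg (a - X)
  have hw : 0 < w := by linarith
  obtain ⟨B₁, hB₁⟩ := hU.u1 w
  obtain ⟨B₂, hB₂⟩ := hU.u2 w
  have haX := abs_le.1 (show |a - X| ≤ w - 2 * r by linarith)
  have hbY := abs_le.1 (show |b - Y| ≤ w - 2 * r by linarith)
  have m1 : Measurable fun x => n1 φ w x Y := (hU.m1 hw).comp (measurable_id.prodMk measurable_const)
  have m2 : Measurable fun y => n2 φ w X y := (hU.m2 hw).comp (measurable_const.prodMk measurable_id)
  have m1' : Measurable fun s : ℝ => n1 φ w (a + r * s) Y := m1.comp (by fun_prop)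
  have m2' : Measurable fun s : ℝ => n2 φ w X (b + r * s) := m2.comp (by fun_prop)
  have hA : ∀ s : ℝ, |s| ≤ 2 → |a + r * s - X| ≤ R + 5 * r := by
    intro s hs
    have e : a + r * s - X = (a - X) + r * s := by ring
    rw [e]
    refine (abs_add_le _ _).trans ?_
    rw [abs_mul, abs_of_pos hr]
    nlinarith
  have hB : ∀ s : ℝ, |s| ≤ 2 → |b + r * s - Y| ≤ R + 5 * r := by
    intro s hs
    have e : b + r * s - Y = (b - Y) + r * s := by ring
    rw [e]
    refine (abs_add_le _ _).trans ?_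
    rw [abs_mul, abs_of_pos hr]
    nlinarith
  have key := H (fun s => r ^ 2 * lam * F (a + r * s)) (fun t => r ^ 2 * lam * G (b + r * t))
    (fun s t => Φ (a + r * s) (b + r * t)) _ _ _ _
    (fun s => (n1 φ w (a + r * s) Y : ℝ)) (fun t => (n2 φ w X (b + r * t) : ℝ))
    (by fun_prop) (by fun_prop) (fun s => hF1 _) (fun t => hG1 _) (sol_scale hS hF hG a b r)
    (int_of_bd m1' (fun s => hB₁ _ _) measure_Icc_lt_top.ne)
    (int_of_bd m2' (fun s => hB₂ _ _) measure_Icc_lt_top.ne)
    (fun s hs n hn => by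
      have h0 : Alt (fun t => φ (a + r * s) (b + r * t)) (Ioo (-2) 2) n :=
        Pool.Agent.N273.LT.Alt.congr hn (fun t ht =>
          hEq _ _ (hA s (abs_le.2 hs)) (hB t (abs_le.2 ⟨ht.1.le, ht.2.le⟩)))
      have h1 := Pool.Agent.N273.LT.Alt.affine (u := fun y => φ (a + r * s) y) hr h0
      have h2 := h1.subset (J := Ioo (Y + -w) (Y + w))
        (Ioo_subset_Ioo (by linarith [hbY.1]) (by linarith [hbY.2]))
      have h3 : n ≤ n1 φ w (a + r * s) Y := le_sc (hU.b1 _) h2
      exact_mod_cast h3)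
    (fun t ht n hn => by
      have h0 : Alt (fun s => φ (a + r * s) (b + r * t)) (Ioo (-2) 2) n :=
        Pool.Agent.N273.LT.Alt.congr hn (fun s hs =>
          hEq _ _ (hA s (abs_le.2 ⟨hs.1.le, hs.2.le⟩)) (hB t (abs_le.2 ht)))
      have h1 := Pool.Agent.N273.LT.Alt.affine (u := fun x => φ x (b + r * t)) hr h0
      have h2 := h1.subset (J := Ioo (X + -w) (X + w))
        (Ioo_subset_Ioo (by linarith [haX.1]) (by linarith [haX.2]))
      have h3 : n ≤ n2 φ w X (b + r * t) := le_sc (hU.b2 _) h2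
      exact_mod_cast h3)
    ((a' - a) / r) ((b' - b) / r) κ
    (by rw [abs_div, abs_of_pos hr, div_le_one hr]; exact ha)
    (by rw [abs_div, abs_of_pos hr, div_le_one hr]; exact hb)
    (fun s t hs ht => by
      have e : a + r * s - a' = r * (s - (a' - a) / r) := by
        field_simp
        ring
      have e' : b + r * t - b' = r * (t - (b' - b) / r) := by
        field_simp
        ring
      have h1 : |a + r * s - a'| ≤ r := by
        rw [e, abs_mul, abs_of_pos hr]
        nlinarith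
      have h2 : |b + r * t - b'| ≤ r := by
        rw [e', abs_mul, abs_of_pos hr]
        nlinarith
      show |Φ (a + r * s) (b + r * t)| ≤ κ
      rw [hEq _ _ ?_ ?_]
      · exact hκ _ _ h1 h2
      · have e3 : a + r * s - X = (a + r * s - a') + ((a' - a) + (a - X)) := by ring
        rw [e3]
        refine (abs_add_le _ _).trans ?_
        have := abs_add_le (a' - a) (a - X)
        linarith
      · have e3 : b + r * t - Y = (b + r * t - b') + ((b' - b) + (b - Y)) := by ring
        rw [e3]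
        refine (abs_add_le _ _).trans ?_
        have := abs_add_le (b' - b) (b - Y)
        linarith)
    ((x - a) / r) ((y - b) / r)
    (by rw [abs_div, abs_of_pos hr, div_le_one hr]; exact hx)
    (by rw [abs_div, abs_of_pos hr, div_le_one hr]; exact hy)
  have ex : a + r * ((x - a) / r) = x := by
    field_simp
    ring
  have ey : b + r * ((y - b) / r) = y := by
    field_simp
    ring
  have hxX : |x - X| ≤ R + 5 * r := by
    have := hA ((x - a) / r) (by
      rw [abs_div, abs_of_pos hr]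
      have := (div_le_one hr).2 hx
      linarith)
    rwa [ex] at this
  have hyY : |y - Y| ≤ R + 5 * r := by
    have := hB ((y - b) / r) (by
      rw [abs_div, abs_of_pos hr]
      have := (div_le_one hr).2 hy
      linarith)
    rwa [ey] at this
  rw [ex, ey, hEq _ _ hxX hyY] at key
  refine key.trans ?_
  have hκ0 : 0 ≤ κ := (abs_nonneg _).trans (hκ a' b' (by simpa using hr.le) (by simpa using hr.le))
  refine mul_le_mul_of_nonneg_left (Real.exp_le_exp.2 (mul_le_mul_of_nonneg_left ?_ hC.le)) hκ0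
  have i1 := comp_int m1 (fun x => hB₁ x Y) (a := a) (r := r) (X := X) (w := w) hr
    (by linarith [haX.1]) (by linarith [haX.2])
  have i2 := comp_int m2 (fun y => hB₂ X y) (a := b) (r := r) (X := Y) (w := w) hr
    (by linarith [hbY.1]) (by linarith [hbY.2])
  unfold zz
  rw [add_div]
  linarith

theorem t_CHAIN (hE : S_EXT) : S_CHAIN := by
  obtain ⟨C, hC, H⟩ := step
  refine ⟨C, hC, ?_⟩
  intro f g hf hg L lam hL hlam φ hφ hU r w X Y κ N hr hF hG hw hκ a b ha hb
  rcases Nat.eq_zero_or_pos N with rfl | hN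
  · simp only [Nat.cast_zero, zero_mul, Real.exp_zero, mul_one]
    rw [Nat.cast_zero, zero_mul] at ha hb
    exact hκ a b (ha.trans hr.le) (hb.trans hr.le)
  have hN' : (0 : ℝ) < N := by exact_mod_cast hN
  have hR : 0 < ((N : ℝ) + 5) * r := by positivity
  have hwin : ∀ c : ℝ, c - (N + 5) * r ≤ c + (N + 5) * r := fun c => by linarith
  obtain ⟨Φ, Φx, Φxx, Φy, Φyy, hS, hEq⟩ := hE f g hf hg L lam hL hlam φ hφ
    (X - (N + 5) * r) (X + (N + 5) * r) (Y - (N + 5) * r) (Y + (N + 5) * r) (hwin X) (hwin Y)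
  have hclx : ∀ c x : ℝ, |clamp (c - (N + 5) * r) (c + (N + 5) * r) x - c| ≤ (N + 5) * r := by
    intro c x
    have h1 := clamp_mem (hwin c) x
    rw [abs_le]
    constructor <;> linarith [h1.1, h1.2]
  have hEq' : ∀ x y, |x - X| ≤ N * r + 5 * r → |y - Y| ≤ N * r + 5 * r →
      Φ x y = (fun x y => φ (x, y)) x y := by
    intro x y hx hy
    have h1 := abs_le.1 hx
    have h2 := abs_le.1 hy
    exact hEq x ⟨by linarith [h1.1], by linarith [h1.2]⟩ y ⟨by linarith [h2.1], by linarith [h2.2]⟩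
  have hF1 : ∀ x, |r ^ 2 * lam * f (clamp (X - (N + 5) * r) (X + (N + 5) * r) x)| ≤ 1 / 100 :=
    fun x => hF _ (hclx X x)
  have hG1 : ∀ y, |r ^ 2 * lam * g (clamp (Y - (N + 5) * r) (Y + (N + 5) * r) y)| ≤ 1 / 100 :=
    fun y => hG _ (hclx Y y)
  obtain ⟨E, hE'⟩ : ∃ E : ℝ, E = C * (1 + zz (fun x y => φ (x, y)) w X Y / r) := ⟨_, rfl⟩
  have hda : |(a - X) / N| ≤ r := by
    rw [abs_div, abs_of_pos hN', div_le_iff₀ hN']
    linarith
  have hdb : |(b - Y) / N| ≤ r := by
    rw [abs_div, abs_of_pos hN', div_le_iff₀ hN']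
    linarith
  have key : ∀ j : ℕ, j ≤ N → ∀ x y, |x - (X + j * ((a - X) / N))| ≤ r →
      |y - (Y + j * ((b - Y) / N))| ≤ r → |φ (x, y)| ≤ κ * Real.exp (j * E) := by
    intro j
    induction j with
    | zero =>
      intro _ x y hx hy
      simp only [Nat.cast_zero, zero_mul, Real.exp_zero, mul_one]
      rw [Nat.cast_zero, zero_mul, add_zero] at hx hy
      exact hκ x y hx hy
    | succ j ih =>
      intro hj x y hx hy
      have hj' : ((j + 1 : ℕ) : ℝ) ≤ N := by exact_mod_cast hj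
      have hj0 : (0 : ℝ) ≤ ((j + 1 : ℕ) : ℝ) := Nat.cast_nonneg _
      have e1 : |X + ((j + 1 : ℕ) : ℝ) * ((a - X) / N) - X| ≤ N * r := by
        rw [add_sub_cancel_left, abs_mul, abs_of_nonneg hj0]
        exact mul_le_mul hj' hda (abs_nonneg _) hN'.le
      have e2 : |Y + ((j + 1 : ℕ) : ℝ) * ((b - Y) / N) - Y| ≤ N * r := by
        rw [add_sub_cancel_left, abs_mul, abs_of_nonneg hj0]
        exact mul_le_mul hj' hdb (abs_nonneg _) hN'.le
      have h1 := H (fun x => f (clamp (X - (N + 5) * r) (X + (N + 5) * r) x))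
        (fun y => g (clamp (Y - (N + 5) * r) (Y + (N + 5) * r) y)) lam (fun x y => φ (x, y))
        Φ Φx Φxx Φy Φyy (hf.comp (clamp_cont _ _)) (hg.comp (clamp_cont _ _)) hS hU r w X Y (N * r)
        (X + ((j + 1 : ℕ) : ℝ) * ((a - X) / N)) (Y + ((j + 1 : ℕ) : ℝ) * ((b - Y) / N))
        (X + (j : ℝ) * ((a - X) / N)) (Y + (j : ℝ) * ((b - Y) / N)) (κ * Real.exp (j * E))
        hr hEq' hF1 hG1 e1 e2 (by linarith)
        (by
          have : X + (j : ℝ) * ((a - X) / N) - (X + ((j + 1 : ℕ) : ℝ) * ((a - X) / N)) =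
            -((a - X) / N) := by push_cast; ring
          rw [this, abs_neg]
          exact hda)
        (by
          have : Y + (j : ℝ) * ((b - Y) / N) - (Y + ((j + 1 : ℕ) : ℝ) * ((b - Y) / N)) =
            -((b - Y) / N) := by push_cast; ring
          rw [this, abs_neg]
          exact hdb)
        (fun x y hx hy => ih (by omega) x y hx hy) x y hx hy
      refine h1.trans (le_of_eq ?_)
      rw [← hE', mul_assoc, ← Real.exp_add]
      congr 2
      push_cast
      ring
  have h2 := key N le_rfl a b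
    (by
      have : a - (X + N * ((a - X) / N)) = 0 := by field_simp; ring
      rw [this, abs_zero]
      exact hr.le)
    (by
      have : b - (Y + N * ((b - Y) / N)) = 0 := by field_simp; ring
      rw [this, abs_zero]
      exact hr.le)
  rw [hE'] at h2
  exact h2

end Pool.Agent.N755.LS
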